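import Pool.Agent.Helper59.TD.St.Sampling
import Pool.Agent.Helper59.TD.St.Kernels

/-!
# The two dominant families of eight classes
-/

namespace Pool.Agent.Helper59.TD

/-- From a kernel to a dominant family. -/
theorem witness {m : ℕ} (w : Fin m → ℕ) (a : Fin m → Fin m → ℕ) (q S : ℕ) (hq : 0 < q)
    (hS0 : 0 < S) (hS : ∑ i, w i = S) (ha : ∀ i j, a i j + a j i = 2 * q)
    (s : Finset (Fin 12)) (hs : ∀ k ∈ s, S ^ 5 * q ^ 10 < kernelSum w a (Rep k)) :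
    ∃ β : ℝ, 0 < β ∧ ∃ n₀ : ℕ, ∀ n ≥ n₀, ∃ G : Tour n, ∀ k : Fin 12, k ∈ s →
      (1 + β) * (n : ℝ) ^ 5 ≤ 1024 * (cnt (Rep k) G : ℝ) := by
  have hM : (0 : ℝ) < (S : ℝ) ^ 5 * (2 * q) ^ 10 := by positivity
  -- the relative excess is at least `1 / (S ^ 5 * q ^ 10)`
  set β : ℝ := 1 / (2 * ((S : ℝ) ^ 5 * q ^ 10)) with hβ
  have hP : (0 : ℝ) < (S : ℝ) ^ 5 * (q : ℝ) ^ 10 := by positivity
  have hβ0 : 0 < β := by positivity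
  obtain ⟨n₀, h⟩ := sampling w a q S hq hS0 hS ha (β / 1024) (by positivity)
  refine ⟨β, hβ0, n₀, fun n hn => ?_⟩
  obtain ⟨G, hG⟩ := h n hn
  refine ⟨G, fun k hk => ?_⟩
  have h1 := hG (Rep k)
  have h2 : ((S : ℝ) ^ 5 * (q : ℝ) ^ 10) + 1 ≤ kernelSum w a (Rep k) := by
    exact_mod_cast hs k hk
  have h3 : 1 + 2 * β ≤ 1024 * ((kernelSum w a (Rep k) : ℝ) / ((S : ℝ) ^ 5 * (2 * q) ^ 10)) := by
    rw [hβ]
    have e : (S : ℝ) ^ 5 * (2 * q) ^ 10 = 1024 * ((S : ℝ) ^ 5 * (q : ℝ) ^ 10) := by ring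
    rw [e]
    have e2 : 1024 * ((kernelSum w a (Rep k) : ℝ) / (1024 * ((S : ℝ) ^ 5 * (q : ℝ) ^ 10))) =
        (kernelSum w a (Rep k) : ℝ) / ((S : ℝ) ^ 5 * (q : ℝ) ^ 10) := by
      field_simp
    rw [e2, le_div_iff₀ hP]
    have e3 : (1 + 2 * (1 / (2 * ((S : ℝ) ^ 5 * (q : ℝ) ^ 10)))) * ((S : ℝ) ^ 5 * (q : ℝ) ^ 10) =
        ((S : ℝ) ^ 5 * (q : ℝ) ^ 10) + 1 := by
      field_simp
    rw [e3]
    exact h2
  have hn5 : (0 : ℝ) ≤ (n : ℝ) ^ 5 := by positivity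
  have h4 : (1 + β) * (n : ℝ) ^ 5 ≤
      1024 * (((kernelSum w a (Rep k) : ℝ) / ((S : ℝ) ^ 5 * (2 * q) ^ 10) - β / 1024) *
        (n : ℝ) ^ 5) := by
    have : 1 + β ≤ 1024 * ((kernelSum w a (Rep k) : ℝ) / ((S : ℝ) ^ 5 * (2 * q) ^ 10) -
        β / 1024) := by linarith
    calc (1 + β) * (n : ℝ) ^ 5 ≤ (1024 * ((kernelSum w a (Rep k) : ℝ) /
        ((S : ℝ) ^ 5 * (2 * q) ^ 10) - β / 1024)) * (n : ℝ) ^ 5 :=
          mul_le_mul_of_nonneg_right this hn5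
      _ = _ := by ring
  refine h4.trans ?_
  have := mul_le_mul_of_nonneg_left h1 (by norm_num : (0 : ℝ) ≤ 1024)
  exact this

theorem witD : ∃ β : ℝ, 0 < β ∧ ∃ n₀ : ℕ, ∀ n ≥ n₀, ∃ G : Tour n,
    ∀ k : Fin 12, k ∈ ({0, 1, 2, 3, 4, 5, 7, 8} : Finset (Fin 12)) →
      (1 + β) * (n : ℝ) ^ 5 ≤ 1024 * (cnt (Rep k) G : ℝ) :=
  witness wD aD 10 489 (by norm_num) (by norm_num) (by decide) (by decide) _
    (fun k hk => kernelD k hk)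

theorem witA : ∃ β : ℝ, 0 < β ∧ ∃ n₀ : ℕ, ∀ n ≥ n₀, ∃ G : Tour n,
    ∀ k : Fin 12, k ∈ ({0, 1, 2, 3, 4, 5, 7, 11} : Finset (Fin 12)) →
      (1 + β) * (n : ℝ) ^ 5 ≤ 1024 * (cnt (Rep k) G : ℝ) :=
  witness wA aA 50 10027 (by norm_num) (by norm_num) (by decide) (by decide) _
    (fun k hk => kernelA k hk)

end Pool.Agent.Helper59.TD
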