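import Pool.Agent.Helper59.TD.Fin.Ineq
import Pool.Agent.Helper59.TD.Fin.Witness
import Pool.Agent.Helper59.TD.St.Main

/-!
# The tournament number 4 is highly dominant
-/

namespace Pool.Agent.Helper59.TD

theorem highlyDominant_four : HighlyDominant (Rep 4) :=
  main_reduction ineq6 ineq9 ineq8 ineq10 witD witA

end Pool.Agent.Helper59.TD
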