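import Pool.Agent.Helper59.TD.St.PsdSound
import Pool.Agent.Helper59.TD.Data7

/-!
# The largest quadratic form of the certificate is positive semidefinite
-/

namespace Pool.Agent.Helper59.TD

theorem psd_T3_1 : PSDf (qf T3_1_id 40 T3_1_q) :=
  psd_sound _ _ _ (by decide +kernel) (by decide +kernel) (by decide +kernel)

end Pool.Agent.Helper59.TD
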