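import Pool.Agent.Helper59.TD.Fin.Zero7
import Pool.Agent.Helper59.TD.Fin.Table31
import Pool.Agent.Helper59.TD.St.Pos
import Pool.Agent.Helper59.TD.St.Copies
import Pool.Agent.Helper59.TD.St.Extremal

/-!
# The four inequalities between the densities
-/

namespace Pool.Agent.Helper59.TD

theorem Tour.isTour {n : ℕ} (G : Tour n) : IsTour G.adj := ⟨G.irr, G.anti⟩

/-- positivity of the sums with three roots and one extra vertex on each side -/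
theorem p1 {n : ℕ} (A : Fin n → Fin n → Bool) (cs : List (List Bool)) (Q : ℕ → ℕ → ℤ)
    (hQ : ∀ i j, |Q i j| ≤ 2 ^ 160) (hpsd : PSDf Q) (k : ℕ) (hk : cs.length + 1 = k) :
    -(4 * 2 ^ 160 * (n : ℤ) ^ k) ≤ gWalk A cs [] (gLeaf1 A Q) := by
  have := pos1 A cs Q (2 ^ 160) (by positivity) hQ hpsd
  rw [hk, Fintype.card_fin] at this
  exact this

theorem p2 {n : ℕ} (A : Fin n → Fin n → Bool) (cs : List (List Bool)) (Q : ℕ → ℕ → ℤ)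
    (hQ : ∀ i j, |Q i j| ≤ 2 ^ 160) (hpsd : PSDf Q) (k : ℕ) (hk : cs.length + 3 = k) :
    -(4 * 2 ^ 160 * (n : ℤ) ^ k) ≤ gWalk A cs [] (gLeaf2 A Q) := by
  have := pos2 A cs Q (2 ^ 160) (by positivity) hQ hpsd
  rw [hk, Fintype.card_fin] at this
  exact this

theorem ineq6 : ∃ C : ℝ, ∀ (n : ℕ) (G : Tour n),
    1024 * (cnt (Rep 6) G : ℝ) ≤ (n : ℝ) ^ 5 + C * (n : ℝ) ^ 4 := by
  refine ⟨2 * 2 ^ 160, fun n G => ?_⟩
  have h0 := E6_zero (Fin n) G.adj G.isTour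
  have h1 := p2 G.adj [[]] _ bd_U1_0 psd_U1_0 4 rfl
  have h2 := p1 G.adj c30 _ bd_U3_0 psd_U3_0 4 rfl
  have h3 := p1 G.adj c31 _ bd_U3_1 psd_U3_1 4 rfl
  have h4 := walk_cnt 6 G
  have h5 : ((n.descFactorial 5 : ℕ) : ℤ) ≤ (n : ℤ) ^ 5 := by
    exact_mod_cast Nat.descFactorial_le_pow n 5
  unfold E6 at h0
  have h4' : gWalk G.adj (T5c 6) [] (fun _ => 1) = (cnt (Rep 6) G : ℤ) := h4
  rw [h4', Fintype.card_fin] at h0
  have key : 1024 * (cnt (Rep 6) G : ℤ) ≤ (n : ℤ) ^ 5 + 2 * 2 ^ 160 * (n : ℤ) ^ 4 := by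
    have h6 : (0 : ℤ) ≤ 2 ^ 160 * (n : ℤ) ^ 4 := by positivity
    nlinarith [h0, h1, h2, h3, h5, h6]
  exact_mod_cast key

theorem ineq9 : ∃ C : ℝ, ∀ (n : ℕ) (G : Tour n),
    (cnt (Rep 9) G : ℝ) ≤ cnt (Rep 4) G + C * (n : ℝ) ^ 4 := by
  refine ⟨2 * 2 ^ 160, fun n G => ?_⟩
  have h0 := E9_zero (Fin n) G.adj G.isTour
  have h3 := p1 G.adj c31 _ bd_W3_1 psd_W3_1 4 rfl
  have h4 : gWalk G.adj (T5c 9) [] (fun _ => 1) = (cnt (Rep 9) G : ℤ) := walk_cnt 9 G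
  have h5 : gWalk G.adj (T5c 4) [] (fun _ => 1) = (cnt (Rep 4) G : ℤ) := walk_cnt 4 G
  unfold E9 at h0
  rw [h4, h5] at h0
  have key : (cnt (Rep 9) G : ℤ) ≤ cnt (Rep 4) G + 2 * 2 ^ 160 * (n : ℤ) ^ 4 := by
    linarith [h0, h3]
  exact_mod_cast key

theorem ineq8 : ∃ C : ℝ, ∀ (n : ℕ) (G : Tour n),
    (cnt (Rep 8) G : ℝ) + cnt (Rep 11) G ≤ 2 * cnt (Rep 4) G + C * (n : ℝ) ^ 4 := by
  refine ⟨2 ^ 160, fun n G => ?_⟩
  have h0 := E8_zero (Fin n) G.adj G.isTour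
  have h3 := p1 G.adj c31 _ bd_V3_1 psd_V3_1 4 rfl
  have h4 : gWalk G.adj (T5c 8) [] (fun _ => 1) = (cnt (Rep 8) G : ℤ) := walk_cnt 8 G
  have h5 : gWalk G.adj (T5c 4) [] (fun _ => 1) = (cnt (Rep 4) G : ℤ) := walk_cnt 4 G
  have h6 : gWalk G.adj (T5c 11) [] (fun _ => 1) = (cnt (Rep 11) G : ℤ) := walk_cnt 11 G
  unfold E8 at h0
  rw [h4, h5, h6] at h0
  have key : (cnt (Rep 8) G : ℤ) + cnt (Rep 11) G ≤
      2 * cnt (Rep 4) G + 2 ^ 160 * (n : ℤ) ^ 4 := by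
    have h6 : (0 : ℤ) ≤ 2 ^ 160 * (n : ℤ) ^ 4 := by positivity
    linarith [h0, h3]
  exact_mod_cast key

/-- the localised inequality -/
theorem local10 : ∃ C : ℝ, ∀ (n : ℕ) (G : Tour n),
    (∑ v : Fin n, (cyc G v : ℝ) * cntAt (Rep 10) G v) ≤
      (∑ v : Fin n, (cyc G v : ℝ) * cntAt (Rep 4) G v) + C * (n : ℝ) ^ 6 := by
  refine ⟨24 * 2 ^ 160 + 100, fun n G => ?_⟩
  have h0 := E7_zero (Fin n) G.adj G.isTour
  have h1 := p2 G.adj T3_0_c _ bd_T3_0 psd_T3_0 6 rfl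
  have h2 := p2 G.adj T3_1_c _ bd_T3_1 psd_T3_1 6 rfl
  have h3 := p1 G.adj T5_4_c _ bd_T5_4 psd_T5_4 6 rfl
  have h4 := p1 G.adj T5_6_c _ bd_T5_6 psd_T5_6 6 rfl
  have h5 := p1 G.adj T5_9_c _ bd_T5_9 psd_T5_9 6 rfl
  have h6 := p1 G.adj T5_10_c _ bd_T5_10 psd_T5_10 6 rfl
  have t4 := tgt_bound 4 G
  have t10 := tgt_bound 10 G
  have e4 : gWalk G.adj (T5c ((4 : Fin 12) : ℕ)) [] (gLeafT G.adj) =
      gWalk G.adj T5_4_c [] (gLeafT G.adj) := rfl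
  have e10 : gWalk G.adj (T5c ((10 : Fin 12) : ℕ)) [] (gLeafT G.adj) =
      gWalk G.adj T5_10_c [] (gLeafT G.adj) := rfl
  rw [e4] at t4
  rw [e10] at t10
  unfold E7 at h0
  generalize gWalk G.adj T3_0_c [] _ = x1 at *
  generalize gWalk G.adj T3_1_c [] _ = x2 at *
  generalize gWalk G.adj T5_4_c [] (gLeaf1 _ _) = x3 at *
  generalize gWalk G.adj T5_6_c [] _ = x4 at *
  generalize gWalk G.adj T5_9_c [] _ = x5 at *
  generalize gWalk G.adj T5_10_c [] (gLeaf1 _ _) = x6 at *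
  generalize gWalk G.adj T5_10_c [] (gLeafT _) = x7 at *
  generalize gWalk G.adj T5_4_c [] (gLeafT _) = x8 at *
  have hden : (1 : ℤ) ≤ ((4 * den : ℕ) : ℤ) := by
    have : 1 ≤ 4 * den := by unfold den; norm_num
    exact_mod_cast this
  generalize ((4 * den : ℕ) : ℤ) = d at *
  rw [abs_le] at t4 t10
  have hn : (0 : ℤ) ≤ (n : ℤ) ^ 6 := by positivity
  have m : d * (x7 - x8) ≤ 24 * 2 ^ 160 * (n : ℤ) ^ 6 := by nlinarith
  have m' : x7 - x8 ≤ 24 * 2 ^ 160 * (n : ℤ) ^ 6 := by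
    by_contra hcon
    push Not at hcon
    have hpos : 0 ≤ x7 - x8 := by
      have : (0 : ℤ) ≤ 24 * 2 ^ 160 * (n : ℤ) ^ 6 := by positivity
      linarith
    nlinarith
  have key : (∑ v : Fin n, (cyc G v : ℤ) * cntAt (Rep 10) G v) ≤
      (∑ v : Fin n, (cyc G v : ℤ) * cntAt (Rep 4) G v) + (24 * 2 ^ 160 + 100) * (n : ℤ) ^ 6 := by
    linarith [t4.1, t4.2, t10.1, t10.2]
  exact_mod_cast key

theorem ineq10 : ∃ C : ℝ, ∀ (n : ℕ) (G : Tour n), (cnt (Rep 4) G : ℝ) ≤ cnt (Rep 10) G →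
    ((cnt (Rep 10) G : ℝ) - cnt (Rep 4) G) ^ 2 ≤ C * (n : ℝ) ^ 9 := by
  refine extremal (Rep 10) (Rep 4) ?_ local10
  decide

end Pool.Agent.Helper59.TD
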