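import Pool.Agent.Helper59.TD.St.PsdSound
import Pool.Agent.Helper59.TD.Data5
import Pool.Agent.Helper59.TD.Data7

/-!
# The quadratic forms of the certificates are positive semidefinite
-/

namespace Pool.Agent.Helper59.TD

theorem psd_T3_0 : PSDf (qf T3_0_id 29 T3_0_q) :=
  psd_sound _ _ _ (by decide +kernel) (by decide +kernel) (by decide +kernel)

theorem psd_T5_4 : PSDf (qf T5_4_id 26 T5_4_q) :=
  psd_sound _ _ _ (by decide +kernel) (by decide +kernel) (by decide +kernel)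

theorem psd_T5_6 : PSDf (qf T5_6_id 30 T5_6_q) :=
  psd_sound _ _ _ (by decide +kernel) (by decide +kernel) (by decide +kernel)

theorem psd_T5_9 : PSDf (qf T5_9_id 30 T5_9_q) :=
  psd_sound _ _ _ (by decide +kernel) (by decide +kernel) (by decide +kernel)

theorem psd_T5_10 : PSDf (qf T5_10_id 30 T5_10_q) :=
  psd_sound _ _ _ (by decide +kernel) (by decide +kernel) (by decide +kernel)

theorem bd_T3_0 (c c' : ℕ) : |qf T3_0_id 29 T3_0_q c c'| ≤ 2 ^ 160 :=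
  qf_bound _ _ _ _ (by decide +kernel) (by decide +kernel) _ _

theorem bd_T3_1 (c c' : ℕ) : |qf T3_1_id 40 T3_1_q c c'| ≤ 2 ^ 160 :=
  qf_bound _ _ _ _ (by decide +kernel) (by decide +kernel) _ _

theorem bd_T5_4 (c c' : ℕ) : |qf T5_4_id 26 T5_4_q c c'| ≤ 2 ^ 160 :=
  qf_bound _ _ _ _ (by decide +kernel) (by decide +kernel) _ _

theorem bd_T5_6 (c c' : ℕ) : |qf T5_6_id 30 T5_6_q c c'| ≤ 2 ^ 160 :=
  qf_bound _ _ _ _ (by decide +kernel) (by decide +kernel) _ _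

theorem bd_T5_9 (c c' : ℕ) : |qf T5_9_id 30 T5_9_q c c'| ≤ 2 ^ 160 :=
  qf_bound _ _ _ _ (by decide +kernel) (by decide +kernel) _ _

theorem bd_T5_10 (c c' : ℕ) : |qf T5_10_id 30 T5_10_q c c'| ≤ 2 ^ 160 :=
  qf_bound _ _ _ _ (by decide +kernel) (by decide +kernel) _ _

theorem psd_U1_0 : PSDf (qf U1_0_id 4 U1_0_q) :=
  psd_sound _ _ _ (by decide +kernel) (by decide +kernel) (by decide +kernel)

theorem psd_U3_0 : PSDf (qf U3_0_id 8 U3_0_q) :=
  psd_sound _ _ _ (by decide +kernel) (by decide +kernel) (by decide +kernel)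

theorem psd_U3_1 : PSDf (qf U3_1_id 8 U3_1_q) :=
  psd_sound _ _ _ (by decide +kernel) (by decide +kernel) (by decide +kernel)

theorem psd_V3_1 : PSDf (qf V3_1_id 6 V3_1_q) :=
  psd_sound _ _ _ (by decide +kernel) (by decide +kernel) (by decide +kernel)

theorem psd_W3_1 : PSDf (qf W3_1_id 2 W3_1_q) :=
  psd_sound _ _ _ (by decide +kernel) (by decide +kernel) (by decide +kernel)

theorem bd_U1_0 (c c' : ℕ) : |qf U1_0_id 4 U1_0_q c c'| ≤ 2 ^ 160 :=
  qf_bound _ _ _ _ (by decide +kernel) (by decide +kernel) _ _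

theorem bd_U3_0 (c c' : ℕ) : |qf U3_0_id 8 U3_0_q c c'| ≤ 2 ^ 160 :=
  qf_bound _ _ _ _ (by decide +kernel) (by decide +kernel) _ _

theorem bd_U3_1 (c c' : ℕ) : |qf U3_1_id 8 U3_1_q c c'| ≤ 2 ^ 160 :=
  qf_bound _ _ _ _ (by decide +kernel) (by decide +kernel) _ _

theorem bd_V3_1 (c c' : ℕ) : |qf V3_1_id 6 V3_1_q c c'| ≤ 2 ^ 160 :=
  qf_bound _ _ _ _ (by decide +kernel) (by decide +kernel) _ _

theorem bd_W3_1 (c c' : ℕ) : |qf W3_1_id 2 W3_1_q c c'| ≤ 2 ^ 160 :=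
  qf_bound _ _ _ _ (by decide +kernel) (by decide +kernel) _ _

end Pool.Agent.Helper59.TD
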