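import Pool.Agent.Helper59.TD.St.Loc
import Pool.Agent.Helper59.TD.St.Transfer
import Pool.Agent.Helper59.TD.St.Sound
import Pool.Agent.Helper59.TD.St.Class5
import Pool.Agent.Helper59.TD.Fin.Tables

/-!
# The identities on five vertices hold in all tournaments
-/

namespace Pool.Agent.Helper59.TD

theorem land_mod (x : ℕ) : Nat.land x (Nat.sub (Nat.pow 2 192) 1) = x % 2 ^ 192 := by
  have := Nat.and_two_pow_sub_one_eq_mod x 192
  exact this

theorem eq_zero_of_modEq {x : ℤ} (h : x ≡ 0 [ZMOD 2 ^ 192]) (hb : |x| < 2 ^ 192) : x = 0 :=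
  Int.eq_zero_of_abs_lt_dvd (Int.modEq_zero_iff_dvd.1 h) hb

/-- the root lists of type `3_0` and `3_1` -/
abbrev c30 : List (List Bool) := [[], [true], [true, true]]
abbrev c31 : List (List Bool) := [[], [true], [true, false]]

theorem wf_c1 : wf [[]] := by
  intro i h
  simp at h
  subst h
  rfl

theorem wf_c30 : wf c30 := by
  intro i h
  have h' : i < 3 := h
  interval_cases i <;> rfl

theorem wf_c31 : wf c31 := by
  intro i h
  have h' : i < 3 := h
  interval_cases i <;> rfl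

theorem T5c_length (k : ℕ) (hk : k < 12) : (T5c k).length = 5 := by
  interval_cases k <;> rfl

theorem wf_T5c (k : ℕ) (hk : k < 12) : wf (T5c k) := by
  intro i h
  have h' : i < 5 := by rw [T5c_length k hk] at h; exact h
  revert h
  interval_cases k <;> interval_cases i <;> intro h <;> rfl

theorem locCnt (k : ℕ) (hk : k < 12) :
    Loc 5 (fun V _ _ A => gWalk A (T5c k) [] (fun _ => 1)) := by
  have := locConst (T5c k) (wf_T5c k hk)
  rwa [T5c_length k hk] at this

section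

variable (V : Type) [Fintype V] [DecidableEq V] (A : V → V → Bool)

/-- the identity behind `t6 ≤ 1` -/
def E6 : ℤ :=
  gWalk A [[]] [] (gLeaf2 A (qf U1_0_id 4 U1_0_q)) +
  (gWalk A c30 [] (gLeaf1 A (qf U3_0_id 8 U3_0_q)) +
  (gWalk A c31 [] (gLeaf1 A (qf U3_1_id 8 U3_1_q)) +
  (10240 * gWalk A (T5c 6) [] (fun _ => 1) +
  (-10) * ((Fintype.card V).descFactorial 5 : ℤ))))

/-- the identity behind `t8 + t11 ≤ 2 t4` -/
def E8 : ℤ :=
  gWalk A c31 [] (gLeaf1 A (qf V3_1_id 6 V3_1_q)) +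
  (6 * gWalk A (T5c 8) [] (fun _ => 1) +
  (6 * gWalk A (T5c 11) [] (fun _ => 1) +
  (-12) * gWalk A (T5c 4) [] (fun _ => 1)))

/-- the identity behind `t9 ≤ t4` -/
def E9 : ℤ :=
  gWalk A c31 [] (gLeaf1 A (qf W3_1_id 2 W3_1_q)) +
  (2 * gWalk A (T5c 9) [] (fun _ => 1) +
  (-2) * gWalk A (T5c 4) [] (fun _ => 1))

end

theorem E6_loc : Loc 5 (fun V _ _ A => E6 V A) :=
  (loc2 [[]] wf_c1 _).add ((loc1 c30 wf_c30 _).add ((loc1 c31 wf_c31 _).add
    (((locCnt 6 (by norm_num)).smul 10240).add ((locDesc 5).smul (-10)))))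

theorem E8_loc : Loc 5 (fun V _ _ A => E8 V A) :=
  (loc1 c31 wf_c31 _).add (((locCnt 8 (by norm_num)).smul 6).add
    (((locCnt 11 (by norm_num)).smul 6).add ((locCnt 4 (by norm_num)).smul (-12))))

theorem E9_loc : Loc 5 (fun V _ _ A => E9 V A) :=
  (loc1 c31 wf_c31 _).add (((locCnt 9 (by norm_num)).smul 2).add
    ((locCnt 4 (by norm_num)).smul (-2)))

theorem chk6_all : ∀ T ∈ reps5, chk6 T = true := by
  have : reps5.all chk6 = true := by decide +kernel
  exact List.all_eq_true.1 this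

theorem chk8_all : ∀ T ∈ reps5, chk8 T = true := by
  have : reps5.all chk8 = true := by decide +kernel
  exact List.all_eq_true.1 this

theorem chk9_all : ∀ T ∈ reps5, chk9 T = true := by
  have : reps5.all chk9 = true := by decide +kernel
  exact List.all_eq_true.1 this

theorem modEq_of_land {x y : ℕ} (h : Nat.beq (Nat.land x (Nat.sub (Nat.pow 2 192) 1)) y = true) :
    (x : ℤ) ≡ y [ZMOD 2 ^ 192] := by
  have h1 := Nat.eq_of_beq_eq_true h
  rw [land_mod] at h1
  have h2 : x ≡ y [MOD 2 ^ 192] := by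
    unfold Nat.ModEq
    rw [← h1, Nat.mod_mod]
  have := Int.natCast_modEq_iff.2 h2
  simpa using this

/-- bounds for the sums over five vertices -/
theorem b5_1 (A : Fin 5 → Fin 5 → Bool) (Q : ℕ → ℕ → ℤ) (hQ : ∀ i j, |Q i j| ≤ 2 ^ 160)
    (cs : List (List Bool)) (hcs : cs.length = 3) :
    |gWalk A cs [] (gLeaf1 A Q)| ≤ 2 ^ 160 * 5 ^ 5 := by
  have := bound1 A cs Q (2 ^ 160) (by positivity) hQ
  simpa [hcs] using this

theorem b5_2 (A : Fin 5 → Fin 5 → Bool) (Q : ℕ → ℕ → ℤ) (hQ : ∀ i j, |Q i j| ≤ 2 ^ 160)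
    (cs : List (List Bool)) (hcs : cs.length = 1) :
    |gWalk A cs [] (gLeaf2 A Q)| ≤ 2 ^ 160 * 5 ^ 5 := by
  have := bound2 A cs Q (2 ^ 160) (by positivity) hQ
  simpa [hcs] using this

theorem b5_c (A : Fin 5 → Fin 5 → Bool) (k : ℕ) (hk : k < 12) :
    |gWalk A (T5c k) [] (fun _ => 1)| ≤ 5 ^ 5 := by
  have := boundConst A (T5c k)
  rw [T5c_length k hk] at this
  simpa using this

theorem E6_five (A : Fin 5 → Fin 5 → Bool) (hA : IsTour A) : E6 (Fin 5) A = 0 := by
  obtain ⟨T, hT, σ, hσ⟩ := class5 A hA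
  have e := E6_loc.equiv (Fin 5) (Fin 5) σ A hA
  have e' : (fun i j => A (σ i) (σ j)) = (fun i j : Fin 5 => ad T i j) := by
    funext i j; exact hσ i j
  rw [e'] at e
  rw [← e]
  have hc := modEq_of_land (chk6_all T hT)
  have s1 := walk2_sound 5 sum5 sum5_eq T [[]] U1_0_id 4 U1_0_q
  have s2 := walk1_sound 5 sum5 sum5_eq T c30 U3_0_id 8 U3_0_q
  have s3 := walk1_sound 5 sum5 sum5_eq T c31 U3_1_id 8 U3_1_q
  have s4 := walkConst_sound 5 sum5 sum5_eq T (T5c 6)
  have b1 := b5_2 (fun i j : Fin 5 => ad T i j) _ bd_U1_0 [[]] rfl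
  have b2 := b5_1 (fun i j : Fin 5 => ad T i j) _ bd_U3_0 c30 rfl
  have b3 := b5_1 (fun i j : Fin 5 => ad T i j) _ bd_U3_1 c31 rfl
  have b4 := b5_c (fun i j : Fin 5 => ad T i j) 6 (by norm_num)
  refine eq_zero_of_modEq ?_ ?_
  · have hd : ((Fintype.card (Fin 5)).descFactorial 5 : ℤ) = 120 := by
      simp [Nat.descFactorial]
    have key : E6 (Fin 5) (fun i j : Fin 5 => ad T i j) ≡ (ev6 T : ℤ) + (-10) * 120
        [ZMOD 2 ^ 192] := by
      unfold E6 ev6 c5
      rw [hd, ← s4]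
      have r : ∀ a b : ℕ, Nat.add a b = a + b := fun _ _ => rfl
      have r' : ∀ a b : ℕ, Nat.mul a b = a * b := fun _ _ => rfl
      rw [r, r, r, r']
      push_cast
      rw [add_assoc, add_assoc, add_assoc]
      exact (s1.symm).add ((s2.symm).add ((s3.symm).add (Int.ModEq.refl _)))
    refine key.trans ?_
    have : (ev6 T : ℤ) + (-10) * 120 ≡ ((1200 : ℕ) : ℤ) + (-10) * 120 [ZMOD 2 ^ 192] :=
      hc.add_right _
    simpa using this
  · have hd : ((Fintype.card (Fin 5)).descFactorial 5 : ℤ) = 120 := by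
      simp [Nat.descFactorial]
    unfold E6
    rw [hd]
    rw [abs_le] at b1 b2 b3 b4
    rw [abs_lt]
    norm_num at b1 b2 b3 b4 ⊢
    constructor <;> linarith [b1.1, b1.2, b2.1, b2.2, b3.1, b3.2, b4.1, b4.2]

theorem E8_five (A : Fin 5 → Fin 5 → Bool) (hA : IsTour A) : E8 (Fin 5) A = 0 := by
  obtain ⟨T, hT, σ, hσ⟩ := class5 A hA
  have e := E8_loc.equiv (Fin 5) (Fin 5) σ A hA
  have e' : (fun i j => A (σ i) (σ j)) = (fun i j : Fin 5 => ad T i j) := by
    funext i j; exact hσ i j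
  rw [e'] at e
  rw [← e]
  have hc := modEq_of_land (chk8_all T hT)
  have s3 := walk1_sound 5 sum5 sum5_eq T c31 V3_1_id 6 V3_1_q
  have s8 := walkConst_sound 5 sum5 sum5_eq T (T5c 8)
  have s11 := walkConst_sound 5 sum5 sum5_eq T (T5c 11)
  have s4 := walkConst_sound 5 sum5 sum5_eq T (T5c 4)
  have b3 := b5_1 (fun i j : Fin 5 => ad T i j) _ bd_V3_1 c31 rfl
  have b8 := b5_c (fun i j : Fin 5 => ad T i j) 8 (by norm_num)
  have b11 := b5_c (fun i j : Fin 5 => ad T i j) 11 (by norm_num)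
  have b4 := b5_c (fun i j : Fin 5 => ad T i j) 4 (by norm_num)
  refine eq_zero_of_modEq ?_ ?_
  · have key : E8 (Fin 5) (fun i j : Fin 5 => ad T i j) ≡ (ev8 T : ℤ) + (-12) * (c5 T 4 : ℤ)
        [ZMOD 2 ^ 192] := by
      unfold E8 ev8 c5
      rw [← s4, ← s8, ← s11]
      have r : ∀ a b : ℕ, Nat.add a b = a + b := fun _ _ => rfl
      have r' : ∀ a b : ℕ, Nat.mul a b = a * b := fun _ _ => rfl
      rw [r, r, r', r']
      push_cast
      rw [add_assoc, add_assoc]
      exact (s3.symm).add (Int.ModEq.refl _)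
    refine key.trans ?_
    have h2 := hc.add_right ((-12) * (c5 T 4 : ℤ))
    refine h2.trans ?_
    have r' : ∀ a b : ℕ, Nat.mul a b = a * b := fun _ _ => rfl
    rw [r']
    push_cast
    ring_nf
    exact Int.ModEq.refl _
  · unfold E8
    rw [abs_le] at b3 b4 b8 b11
    rw [abs_lt]
    norm_num at b3 b4 b8 b11 ⊢
    constructor <;> linarith [b3.1, b3.2, b4.1, b4.2, b8.1, b8.2, b11.1, b11.2]

theorem E9_five (A : Fin 5 → Fin 5 → Bool) (hA : IsTour A) : E9 (Fin 5) A = 0 := by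
  obtain ⟨T, hT, σ, hσ⟩ := class5 A hA
  have e := E9_loc.equiv (Fin 5) (Fin 5) σ A hA
  have e' : (fun i j => A (σ i) (σ j)) = (fun i j : Fin 5 => ad T i j) := by
    funext i j; exact hσ i j
  rw [e'] at e
  rw [← e]
  have hc := modEq_of_land (chk9_all T hT)
  have s3 := walk1_sound 5 sum5 sum5_eq T c31 W3_1_id 2 W3_1_q
  have s9 := walkConst_sound 5 sum5 sum5_eq T (T5c 9)
  have s4 := walkConst_sound 5 sum5 sum5_eq T (T5c 4)
  have b3 := b5_1 (fun i j : Fin 5 => ad T i j) _ bd_W3_1 c31 rfl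
  have b9 := b5_c (fun i j : Fin 5 => ad T i j) 9 (by norm_num)
  have b4 := b5_c (fun i j : Fin 5 => ad T i j) 4 (by norm_num)
  refine eq_zero_of_modEq ?_ ?_
  · have key : E9 (Fin 5) (fun i j : Fin 5 => ad T i j) ≡ (ev9 T : ℤ) + (-2) * (c5 T 4 : ℤ)
        [ZMOD 2 ^ 192] := by
      unfold E9 ev9 c5
      rw [← s4, ← s9]
      have r : ∀ a b : ℕ, Nat.add a b = a + b := fun _ _ => rfl
      have r' : ∀ a b : ℕ, Nat.mul a b = a * b := fun _ _ => rfl
      rw [r, r']
      push_cast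
      rw [add_assoc]
      exact (s3.symm).add (Int.ModEq.refl _)
    refine key.trans ?_
    have h2 := hc.add_right ((-2) * (c5 T 4 : ℤ))
    refine h2.trans ?_
    have r' : ∀ a b : ℕ, Nat.mul a b = a * b := fun _ _ => rfl
    rw [r']
    push_cast
    ring_nf
    exact Int.ModEq.refl _
  · unfold E9
    rw [abs_le] at b3 b4 b9
    rw [abs_lt]
    norm_num at b3 b4 b9 ⊢
    constructor <;> linarith [b3.1, b3.2, b4.1, b4.2, b9.1, b9.2]

theorem E6_zero (V : Type) [Fintype V] [DecidableEq V] (A : V → V → Bool) (hA : IsTour A) :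
    E6 V A = 0 := E6_loc.zero E6_five V A hA

theorem E8_zero (V : Type) [Fintype V] [DecidableEq V] (A : V → V → Bool) (hA : IsTour A) :
    E8 V A = 0 := E8_loc.zero E8_five V A hA

theorem E9_zero (V : Type) [Fintype V] [DecidableEq V] (A : V → V → Bool) (hA : IsTour A) :
    E9 V A = 0 := E9_loc.zero E9_five V A hA

end Pool.Agent.Helper59.TD
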