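import Pool.Agent.Helper59.TD.Fin.Zero5
import Pool.Agent.Helper59.TD.Chk.All

/-!
# The identity on seven vertices holds in all tournaments
-/

namespace Pool.Agent.Helper59.TD

section

variable (V : Type) [Fintype V] [DecidableEq V] (A : V → V → Bool)

/-- the identity behind `t10 ≤ t4` -/
def E7 : ℤ :=
  gWalk A T3_0_c [] (gLeaf2 A (qf T3_0_id 29 T3_0_q)) +
  (gWalk A T3_1_c [] (gLeaf2 A (qf T3_1_id 40 T3_1_q)) +
  (gWalk A T5_4_c [] (gLeaf1 A (qf T5_4_id 26 T5_4_q)) +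
  (gWalk A T5_6_c [] (gLeaf1 A (qf T5_6_id 30 T5_6_q)) +
  (gWalk A T5_9_c [] (gLeaf1 A (qf T5_9_id 30 T5_9_q)) +
  (gWalk A T5_10_c [] (gLeaf1 A (qf T5_10_id 30 T5_10_q)) +
  (((4 * den : ℕ) : ℤ) * gWalk A T5_10_c [] (gLeafT A) +
  (-((4 * den : ℕ) : ℤ)) * gWalk A T5_4_c [] (gLeafT A)))))))

end

theorem T5_4_eq : T5_4_c = T5c 4 := rfl
theorem T5_6_eq : T5_6_c = T5c 6 := rfl
theorem T5_9_eq : T5_9_c = T5c 9 := rfl
theorem T5_10_eq : T5_10_c = T5c 10 := rfl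
theorem T3_0_eq : T3_0_c = c30 := rfl
theorem T3_1_eq : T3_1_c = c31 := rfl

theorem E7_loc : Loc 7 (fun V _ _ A => E7 V A) :=
  (loc2 c30 wf_c30 _).add ((loc2 c31 wf_c31 _).add
    ((loc1 (T5c 4) (wf_T5c 4 (by norm_num)) _).add
    ((loc1 (T5c 6) (wf_T5c 6 (by norm_num)) _).add
    ((loc1 (T5c 9) (wf_T5c 9 (by norm_num)) _).add
    ((loc1 (T5c 10) (wf_T5c 10 (by norm_num)) _).add
    (((locT (T5c 10) (wf_T5c 10 (by norm_num))).smul _).add
    ((locT (T5c 4) (wf_T5c 4 (by norm_num))).smul _)))))))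

theorem modEq_of_land2 {x y : ℕ}
    (h : Nat.beq (Nat.land x (Nat.sub (Nat.pow 2 192) 1))
      (Nat.land y (Nat.sub (Nat.pow 2 192) 1)) = true) :
    (x : ℤ) ≡ y [ZMOD 2 ^ 192] := by
  have h1 := Nat.eq_of_beq_eq_true h
  rw [land_mod, land_mod] at h1
  have h2 : x ≡ y [MOD 2 ^ 192] := h1
  have := Int.natCast_modEq_iff.2 h2
  simpa using this

theorem b7_1 (A : Fin 7 → Fin 7 → Bool) (Q : ℕ → ℕ → ℤ) (hQ : ∀ i j, |Q i j| ≤ 2 ^ 160)
    (cs : List (List Bool)) (hcs : cs.length = 5) :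
    |gWalk A cs [] (gLeaf1 A Q)| ≤ 2 ^ 160 * 7 ^ 7 := by
  have := bound1 A cs Q (2 ^ 160) (by positivity) hQ
  simpa [hcs] using this

theorem b7_2 (A : Fin 7 → Fin 7 → Bool) (Q : ℕ → ℕ → ℤ) (hQ : ∀ i j, |Q i j| ≤ 2 ^ 160)
    (cs : List (List Bool)) (hcs : cs.length = 3) :
    |gWalk A cs [] (gLeaf2 A Q)| ≤ 2 ^ 160 * 7 ^ 7 := by
  have := bound2 A cs Q (2 ^ 160) (by positivity) hQ
  simpa [hcs] using this

theorem b7_T (A : Fin 7 → Fin 7 → Bool) (cs : List (List Bool)) (hcs : cs.length = 5) :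
    |gWalk A cs [] (gLeafT A)| ≤ 5 * 7 ^ 7 := by
  have := boundT A cs
  simpa [hcs] using this

theorem E7_seven (A : Fin 7 → Fin 7 → Bool) (hA : IsTour A) : E7 (Fin 7) A = 0 := by
  obtain ⟨T, hT, σ, hσ⟩ := class7 A hA
  have e := E7_loc.equiv (Fin 7) (Fin 7) σ A hA
  have e' : (fun i j => A (σ i) (σ j)) = (fun i j : Fin 7 => ad T i j) := by
    funext i j; exact hσ i j
  rw [e'] at e
  rw [← e]
  have hc := modEq_of_land2 (chk_all T hT)
  have s1 := walk2_sound 7 sum7 sum7_eq T T3_0_c T3_0_id 29 T3_0_q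
  have s2 := walk2_sound 7 sum7 sum7_eq T T3_1_c T3_1_id 40 T3_1_q
  have s3 := walk1_sound 7 sum7 sum7_eq T T5_4_c T5_4_id 26 T5_4_q
  have s4 := walk1_sound 7 sum7 sum7_eq T T5_6_c T5_6_id 30 T5_6_q
  have s5 := walk1_sound 7 sum7 sum7_eq T T5_9_c T5_9_id 30 T5_9_q
  have s6 := walk1_sound 7 sum7 sum7_eq T T5_10_c T5_10_id 30 T5_10_q
  have s7 := walkT_sound 7 sum7 sum7_eq T T5_10_c
  have s8 := walkT_sound 7 sum7 sum7_eq T T5_4_c
  have b1 := b7_2 (fun i j : Fin 7 => ad T i j) _ bd_T3_0 T3_0_c rfl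
  have b2 := b7_2 (fun i j : Fin 7 => ad T i j) _ bd_T3_1 T3_1_c rfl
  have b3 := b7_1 (fun i j : Fin 7 => ad T i j) _ bd_T5_4 T5_4_c rfl
  have b4 := b7_1 (fun i j : Fin 7 => ad T i j) _ bd_T5_6 T5_6_c rfl
  have b5 := b7_1 (fun i j : Fin 7 => ad T i j) _ bd_T5_9 T5_9_c rfl
  have b6 := b7_1 (fun i j : Fin 7 => ad T i j) _ bd_T5_10 T5_10_c rfl
  have b7 := b7_T (fun i j : Fin 7 => ad T i j) T5_10_c rfl
  have b8 := b7_T (fun i j : Fin 7 => ad T i j) T5_4_c rfl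
  refine eq_zero_of_modEq ?_ ?_
  · have r : ∀ a b : ℕ, Nat.add a b = a + b := fun _ _ => rfl
    have r' : ∀ a b : ℕ, Nat.mul a b = a * b := fun _ _ => rfl
    have key : E7 (Fin 7) (fun i j : Fin 7 => ad T i j) ≡ (ev T : ℤ) + (-(ev' T : ℤ))
        [ZMOD 2 ^ 192] := by
      unfold E7 ev ev'
      rw [← s7, ← s8]
      simp only [r, r']
      push_cast
      simp only [add_assoc]
      refine (s1.symm).add ((s2.symm).add ((s3.symm).add ((s4.symm).add ((s5.symm).add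
        ((s6.symm).add ?_)))))
      rw [neg_mul]
    refine key.trans ?_
    have h2 := hc.add_right (-(ev' T : ℤ))
    rw [add_neg_cancel] at h2
    exact h2
  · unfold E7
    generalize gWalk (fun i j : Fin 7 => ad T i j) T3_0_c [] _ = x1 at *
    generalize gWalk (fun i j : Fin 7 => ad T i j) T3_1_c [] _ = x2 at *
    generalize gWalk (fun i j : Fin 7 => ad T i j) T5_4_c [] (gLeaf1 _ _) = x3 at *
    generalize gWalk (fun i j : Fin 7 => ad T i j) T5_6_c [] _ = x4 at *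
    generalize gWalk (fun i j : Fin 7 => ad T i j) T5_9_c [] _ = x5 at *
    generalize gWalk (fun i j : Fin 7 => ad T i j) T5_10_c [] (gLeaf1 _ _) = x6 at *
    generalize gWalk (fun i j : Fin 7 => ad T i j) T5_10_c [] (gLeafT _) = x7 at *
    generalize gWalk (fun i j : Fin 7 => ad T i j) T5_4_c [] (gLeafT _) = x8 at *
    clear s1 s2 s3 s4 s5 s6 s7 s8 hc e
    have hden : ((4 * den : ℕ) : ℤ) ≤ 2 ^ 142 := by
      have : 4 * den ≤ 2 ^ 142 := by unfold den; norm_num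
      exact_mod_cast this
    have hden0 : (0 : ℤ) ≤ ((4 * den : ℕ) : ℤ) := by positivity
    have m7 : |((4 * den : ℕ) : ℤ) * x7| ≤ 2 ^ 142 * (5 * 7 ^ 7) := by
      rw [abs_mul, abs_of_nonneg hden0]
      exact mul_le_mul hden b7 (abs_nonneg _) (by positivity)
    have m8 : |(-((4 * den : ℕ) : ℤ)) * x8| ≤ 2 ^ 142 * (5 * 7 ^ 7) := by
      rw [abs_mul, abs_neg, abs_of_nonneg hden0]
      exact mul_le_mul hden b8 (abs_nonneg _) (by positivity)
    rw [abs_le] at b1 b2 b3 b4 b5 b6 m7 m8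
    rw [abs_lt]
    norm_num at b1 b2 b3 b4 b5 b6 m7 m8 ⊢
    constructor <;> linarith [b1.1, b1.2, b2.1, b2.2, b3.1, b3.2, b4.1, b4.2, b5.1, b5.2,
      b6.1, b6.2, m7.1, m7.2, m8.1, m8.2]

theorem E7_zero (V : Type) [Fintype V] [DecidableEq V] (A : V → V → Bool) (hA : IsTour A) :
    E7 V A = 0 := E7_loc.zero E7_seven V A hA

end Pool.Agent.Helper59.TD
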